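import Pool.Agent.H5.DPG.Stmts

/-!
Row BRS: soundness of `bru`.
-/

set_option autoImplicit false

namespace Pool.DPG

open Filter TMLib Pool.PG

/-- The invariant of the table. -/
def BrsInv (g : Game) (tb : List (List Bool × List Bool)) : Prop :=
  ∀ e ∈ tb, Sub g e.1 → e.2 ≠ [] → Lab g e.1 e.2

theorem brs_lk (g : Game) (tb : List (List Bool × List Bool)) (h : BrsInv g tb) :
    Snd g (lk tb) := by
  intro X hX hL
  unfold lk at hL ⊢
  rcases hl : tb.filter (fun e => decide (e.1 = X)) with _ | ⟨e, l⟩
  · rw [hl] at hL
    simp at hL
  · rw [hl] at hL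
    have he : e ∈ tb.filter (fun e => decide (e.1 = X)) := by rw [hl]; simp
    obtain ⟨he1, he2⟩ := List.mem_filter.1 he
    have he3 : e.1 = X := by simpa using he2
    rw [hl]
    simp only [List.map_cons, List.headD_cons] at hL ⊢
    subst he3
    exact h e he1 hX hL

theorem brs_thm (h1 : ZSSStmt) (h2 : FSBStmt) (h3 : DSBStmt) : BRSStmt := by
  intro c g
  obtain ⟨hf1, -, hf3, -⟩ := h2
  -- one more entry
  have hstep : ∀ (tb : List (List Bool × List Bool)) (Z : List Bool), BrsInv g tb →
      BrsInv g (tb ++ [(Z, ent g tb Z)]) := by
    intro tb Z hI e he hS hne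
    rcases List.mem_append.1 he with he | he
    · exact hI e he hS hne
    · have he2 : e = (Z, ent g tb Z) := by simpa using he
      subst he2
      simp only at hS hne ⊢
      have hlk := brs_lk g tb hI
      unfold ent at hne ⊢
      split_ifs with hany
      · refine ⟨(hf1 g _).1, fun v => v, ?_⟩
        have hemp : fs g Z = ∅ := by
          rcases Finset.eq_empty_or_nonempty (fs g Z) with h | h
          · exact h
          · have h5 := ((hf3 g Z hS.1).2).2 h
            rw [hany] at h5
            exact absurd h5 (by simp)
        rw [hemp]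
        constructor
        · intro v hv; simp at hv
        · intro v hv; simp at hv
        · intro v hv; simp at hv
        · intro v hv; simp at hv
      · rw [if_neg hany] at hne
        have hany2 : (Z.any fun b => b) = true := by
          cases h : (Z.any fun b => b)
          · exact absurd h hany
          · rfl
        have hnon : (fs g Z).Nonempty := ((hf3 g Z hS.1).2).1 hany2
        have hsub : Sub g (dif g Z (nA g Z)) := (h3 g (pl g Z) Z (tp g Z) hS).1
        exact h1 g (lk tb) Z (lk tb (dif g Z (nA g Z))) hS hnon
          (fun hL => hlk _ hsub hL) hlk hne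
  have hfold : ∀ (l : List (List Bool)) (tb : List (List Bool × List Bool)), BrsInv g tb →
      BrsInv g (l.foldl (fun tb Z => tb ++ [(Z, ent g tb Z)]) tb) := by
    intro l
    induction l with
    | nil => intro tb h; exact h
    | cons Z l ih =>
      intro tb h
      rw [List.foldl_cons]
      exact ih _ (hstep tb Z h)
  intro X hX hL
  have hI : BrsInv g (tab g (sbs ((g.length + 2) ^ c) X)) := by
    unfold tab
    exact hfold _ [] (by intro e he; simp at he)
  exact brs_lk g _ hI X hX hL

end Pool.DPG
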