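import Pool.Agent.H5.DPG.Stmts

/-!
Row PUP: one step of the recursion in polynomial time.
-/

set_option autoImplicit false

namespace Pool.DPG

open Filter TMLib Pool.PG

theorem pup_nil {α β : Type} [Enc α] [Enc β] [DecidableEq β] {f : α → List β} (hf : PTime f) :
    PTime (fun x => decide (f x = [])) :=
  (PTime.isEmpty hf).congr fun x => by cases f x <;> simp

theorem pup_jn : PTime (fun q : Game × Bool × List Bool × List Bool =>
    jn q.1 q.2.1 q.2.2.1 q.2.2.2) := by
  unfold jn msk
  refine PTime.ite (pup_nil (by fun_prop)) (by fun_prop) ?_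
  refine PTime.map (l := fun q : Game × Bool × List Bool × List Bool => List.range q.1.length)
    (g := fun q v => if q.2.2.1.getD v false = true then q.2.1 else q.2.2.2.getD v false)
    (by fun_prop) ?_
  refine PTime.ite ?_ (by fun_prop) (by fun_prop)
  exact PTime.decide_true' (by fun_prop)

theorem pup_thm (h1 : PFNStmt) (h2 : PZSStmt) (h3 : PBRStmt) (h4 : PMAStmt) : PUPStmt := by
  intro c S hS
  obtain ⟨hf1, -, hf3⟩ := h1 c
  obtain ⟨-, hatt, -⟩ := h4
  have hbru : PTime (fun p : Game × List Bool × List Bool => bru c p.1 p.2.1) :=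
    (h3 c).comp (f := fun p : Game × List Bool × List Bool => (p.1, p.2.1)) (by fun_prop)
  have hfnd : PTime (fun p : Game × List Bool × List Bool => fnd c p.1 p.2.1) :=
    hf1.comp (f := fun p : Game × List Bool × List Bool => (p.1, p.2.1)) (by fun_prop)
  have hfs : PTime (fun p : Game × List Bool × List Bool => fs1 c p.1 p.2.1) :=
    hf3.comp (f := fun p : Game × List Bool × List Bool => (p.1, p.2.1)) (by fun_prop)
  have hzs : PTime (fun p : Game × List Bool × List Bool => zs p.1 (S p.1) p.2.1 p.2.2) :=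
    h2 (Game × List Bool × List Bool) (fun p X => S p.1 X) (fun p => p.1) (fun p => p.2.1)
      (fun p => p.2.2)
      (hS.comp (f := fun q : (Game × List Bool × List Bool) × List Bool => (q.1.1, q.2))
        (by fun_prop)) (by fun_prop) (by fun_prop) (by fun_prop)
  have ha : ∀ i : Bool, PTime (fun p : Game × List Bool × List Bool =>
      att i p.1 p.2.1 (fs1 c p.1 p.2.1).2) := fun i =>
    (hatt i).comp (f := fun p : Game × List Bool × List Bool =>
      (p.1, p.2.1, (fs1 c p.1 p.2.1).2))
      (PTime.pair (by fun_prop) (PTime.pair (by fun_prop) (PTime.snd hfs)))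
  have hat : PTime (fun p : Game × List Bool × List Bool =>
      att (fs1 c p.1 p.2.1).1 p.1 p.2.1 (fs1 c p.1 p.2.1).2) :=
    (PTime.cond (PTime.fst hfs) (ha true) (ha false)).congr fun p => by
      cases (fs1 c p.1 p.2.1).1 <;> rfl
  have hjn : PTime (fun p : Game × List Bool × List Bool =>
      jn p.1 (fs1 c p.1 p.2.1).1 (att (fs1 c p.1 p.2.1).1 p.1 p.2.1 (fs1 c p.1 p.2.1).2)
        p.2.2) :=
    pup_jn.comp (f := fun p : Game × List Bool × List Bool =>
      (p.1, (fs1 c p.1 p.2.1).1, att (fs1 c p.1 p.2.1).1 p.1 p.2.1 (fs1 c p.1 p.2.1).2, p.2.2))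
      (PTime.pair (by fun_prop) (PTime.pair (PTime.fst hfs) (PTime.pair hat (by fun_prop))))
  unfold up
  refine PTime.ite (PTime.decide_not (pup_nil hbru)) hbru ?_
  exact PTime.ite (pup_nil hfnd) hzs hjn

end Pool.DPG
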